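import Pool.Agent.Helper85.GP.Fin
import Pool.Agent.Helper85.GP.Cnt
import Pool.Agent.Helper85.GP.Row
import Pool.Agent.Helper85.GP.Tot

set_option autoImplicit false

/-!
# Greenberg's conjecture: many components of `X⁺` vanish, for all levels `N`, all `p` and all `m`

Let `p` be a prime, `N ≥ 2` with `p ∤ N φ(N)` and `1 ≤ m ≤ p - 1`. The even characters `θ` modulo `N p` whose
`p`-part is `ω^m` are the `θ = ψ ω^m` with the characters `ψ` modulo `N` such that `ψ(-1) = (-1)^m`; there are
`φ(N) / 2` of them (`N ≥ 3`). If `ψ₀` is the primitive character of `ψ`, then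

  `L_p(1 - m, θ) = - (1 - ψ₀(p) p^(m-1)) B_{m,ψ₀} / m`.

If `B_{m,ψ₀} / m` is a unit at the place of `ℚ(ψ)` above `p` given by the embedding of the values of `ψ` into the
`p`-adic numbers, then `X_θ = 0`: for `m ≥ 2` the value `L_p(1 - m, θ)` is a unit (see the problem file for the
support of `X_θ`); for `m = 1` the `ψ⁻¹`-component of the class group of `ℚ(ζ_{Np})` vanishes by Herbrand's
theorem, so that of `θ` by Leopoldt's reflection theorem, and the primes above `p` do not contribute to it.

**Theorem.** There are absolute constants `c > 0` and `C` such that for all `p`, `N`, `m` as above with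
`N ≥ C m^5 2^(20 ω(N))` and for every place above `p` the number `B_{m,ψ₀} / m` is a unit for at least

  `c N^(2/3) / (m^(1/3) 2^(4 ω(N)) (log N)^(4/3))`

of the characters `ψ ≠ 1` modulo `N` with `ψ(-1) = (-1)^m` (`ω(N)` is the number of prime factors of `N`).

So for every `p` and every `m`, at every level `N` (`p ∤ N φ(N)`, `N` large) at least `N^(2/3 - ε)` of the
`φ(N) / 2` components `X_θ`, `θ = ψ ω^m`, of `X⁺` vanish; for prime levels `N = q` these are at least
`c q^(2/3) / (m^(1/3) (log q)^(4/3))` characters of conductor `q`. Only `m` has to be small in comparison with `N`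
(`m^5 ≤ c N^(1 - ε)`), the constants do not depend on `p`.

Earlier results for all levels: for `N → ∞`, `p ∤ N φ(N)`, Burungale and Sun (Quantitative non-vanishing of
Dirichlet `L`-values modulo `p`) have a lower bound with `N^(1/2)` instead of `N^(2/3)`.

Proof. Let `P(x) = m! (B_m(x) - B_m)`, a polynomial with integer coefficients, modulo a place above `p`, and
`f_Q(b) = P({Q b / N})` for the `b` prime to `N`. By the orthogonality relations, and by the distribution
relations for the `Q` which are not prime to `N`, all `f_Q` are linear combinations of the reductions of the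
characters `ψ⁻¹` such that `B_{m,ψ₀} / m` is a unit, and of the trivial character. So the number of these `ψ` is
at least the number of linearly independent functions among the `f_Q`. If `Q t = N + n`, `v ∣ n`, `n < v t`,
`R v Q ≤ N` (with `R` about `m`), then in a linear relation between functions `f_c`, `c ≤ Q`, the coefficient
of `f_Q` is zero: let `u N ≡ -t` modulo `v`; on the `b` with `0 ≤ v b - u N < N / Q` all `{c b / N}` are
linear functions of `b`, and this gives a polynomial identity of degree `m`. At the point `b = (u N + t) / v` of all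
the numbers `⌊c b / N⌋` only that of `c = Q` is different from the value in this identity, so the coefficient
of `f_Q` times `P(y + 1) - P(y) = m! m y^(m-1)`, `y = n / (v N)`, is zero. These `Q` are all linearly
independent, and a count with the primes `v` in `(W/4, W]`, `W` about `(N / R²)^(1/3)`, and all
`t` in `(2 R W, 4 R W)` gives so many of them (the `t` are multiples of `p` if `p` is smaller than
`24 log N`, so that `p` does not divide `n / v`).
-/

namespace Pool.Agent.Results.MP_c2a07f_nt.EveryLevel

/-- The generalized Bernoulli number `B_{m,ψ} = N^(m-1) ∑_{a=1}^N ψ(a) B_m(a/N)`. -/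
noncomputable def genBernoulli (m : ℕ) {N : ℕ} (ψ : DirichletCharacter ℂ N) : ℂ :=
  (N : ℂ) ^ (m - 1) * ∑ a ∈ Finset.Icc 1 N, ψ (a : ZMod N) *
    (((Polynomial.bernoulli m).eval ((a : ℚ) / N) : ℚ) : ℂ)

/-- The characters `ψ ≠ 1` modulo `N` with `ψ(-1) = (-1)^m` such that `B_{m,ψ₀} / m` is a unit of the valuation
ring `B`, where `ψ₀` is the primitive character of `ψ` (its modulus is the conductor of `ψ`). -/
def unitCharacters (B : ValuationSubring ℂ) (N m : ℕ) : Set (DirichletCharacter ℂ N) :=
  {ψ | ψ ≠ 1 ∧ ψ (-1) = (-1) ^ m ∧ B.valuation (genBernoulli m ψ.primitiveCharacter / m) = 1}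

/-- There are `c > 0` and `C` such that for all primes `p`, all `N ≥ 2` with `p ∤ N φ(N)`, all `1 ≤ m ≤ p - 1`
with `C m^5 2^(20 ω(N)) ≤ N` and all valuation rings `B` of `ℂ` with `p` in the maximal ideal there are at least
`c N^(2/3) / (m^(1/3) 2^(4 ω(N)) (log N)^(4/3))` characters `ψ ≠ 1` modulo `N` with `ψ(-1) = (-1)^m` such that
`B_{m,ψ₀} / m` is a unit of `B`; `ω(N)` is the number of prime factors of `N`. -/
theorem result : ∃ c C : ℝ, 0 < c ∧ ∀ p N m : ℕ, p.Prime → 2 ≤ N → ¬ p ∣ N * N.totient →
    1 ≤ m → m ≤ p - 1 → C * ((m : ℝ) ^ 5 * 2 ^ (20 * N.primeFactors.card)) ≤ N →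
    ∀ B : ValuationSubring ℂ, B.valuation (p : ℂ) < 1 →
    c * (N : ℝ) ^ (2 / 3 : ℝ) /
      ((m : ℝ) ^ (1 / 3 : ℝ) * 2 ^ (4 * N.primeFactors.card) * Real.log N ^ (4 / 3 : ℝ)) ≤
      (unitCharacters B N m).ncard := by
  obtain ⟨c, C, hc, h⟩ := Pool.Agent.Helper85.GP.Fin.main
    (Pool.Agent.Helper85.GP.Cnt.main Pool.Agent.Helper85.GP.RowM.main Pool.Agent.Helper85.GP.Tot.main)
  refine ⟨c, C, hc, fun p N m hp hN hpN hm hmp hsize B hB => ?_⟩
  exact h p N m hp hpN hN hm (by have := hp.two_le; omega) hsize B hB

end Pool.Agent.Results.MP_c2a07f_nt.EveryLevel
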