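import Pool.Agent.Helper85.GQ.Pig
import Pool.Agent.Helper85.GQ.Cls
import Pool.Agent.Helper85.GQ.Hoe
import Pool.Agent.Helper85.GQ.Spc
import Pool.Agent.Helper85.GQ.Loc
import Pool.Agent.Helper85.GQ.Dif
import Pool.Agent.Helper85.GQ.Rec
import Pool.Agent.Helper85.GQ.Pol
import Pool.Agent.Helper85.GQ.Nvm
import Pool.Agent.Helper85.GQ.Fou
import Pool.Agent.Helper85.GQ.Par

set_option autoImplicit false

/-!
# Greenberg's conjecture when the prime grows with the level: about `p √N` components of `X⁺` vanish

Let `p` be a prime, `N ≥ 2` with `p ∤ N φ(N)` and `1 ≤ m ≤ p - 1`. The even characters `θ` modulo `N p` whose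
`p`-part is `ω^m` are the `θ = ψ ω^m` with the characters `ψ` modulo `N` such that `ψ(-1) = (-1)^m`; there are
`φ(N) / 2` of them (`N ≥ 3`). Let `ψ₀` be the primitive character of `ψ`. If `B_{m,ψ₀} / m` is a unit at the place
of `ℚ(ψ)` above `p` given by the embedding of the values of `ψ` into the `p`-adic numbers, then `X_θ = 0`: for
`m ≥ 2` the value `L_p(1 - m, θ) = - (1 - ψ₀(p) p^(m-1)) B_{m,ψ₀} / m` is a unit (see the problem file for the
support of `X_θ`); for `m = 1` the `ψ⁻¹`-component of the class group of `ℚ(ζ_{Np})` vanishes by Herbrand's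
theorem, so that of `θ` by Leopoldt's reflection theorem, and the primes above `p` do not contribute to it.

**Theorem.** For every `m ≥ 1` there are `c > 0` and `C` such that for all `p`, `N` as above with
`p² ≥ C N^(m-1) log N` and for every place above `p` the number `B_{m,ψ₀} / m` is a unit for at least

  `c min (N, (p √(N / log N))^(1/m)) / (d(N) log N log p) - 1`

of the characters `ψ ≠ 1` modulo `N` with `ψ(-1) = (-1)^m` (`d(N)` is the number of divisors of `N`).

For `m = 1` (the components `θ = ψ ω`) these are, for `p = N^α`, at least `N^(1/2 + α - o(1))` characters if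
`0 < α ≤ 1/2`, and `N^(1 - o(1))` characters if `α ≥ 1/2` is bounded. For all `p` the theorem of Burungale and Sun has
`N^(1/2 - o(1))` (`p` fixed), and our `EveryLevel` `N^(2/3 - o(1))` characters; for `p > N^(1/2 + ε)` the size of the
relative class number gives a positive proportion. So the result is new for `m = 1` and `N^(1/6) < p < N^(1/2)`,
where it closes the gap between these bounds, and similarly for `m ≥ 2` and `N^(2m/3 - 1/2) < p < N^(m - 1/2)`.

Proof. Let `u + 1` be the bound to be proved, `W` a bound with `(m + 1) W < N` and `R_b(x)` the rest of `b x` modulo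
`N`. The functions `x ↦ P(R_b(x) / N)`, `P = m! (B_m(x) - B_m)`, `b` prime to `N`, `x` modulo `N`, span a space of
dimension at most `(u + 1) d(N)` over the field with `p` elements. If `2^π > 2 p^((u + 1) d(N))`, where `π` is the
number of the primes `b ≤ W` which do not divide `N`, then by the pigeonhole principle there are two sets `c ≠ c'` of
such primes with the same sum of these functions. Taking `m`-th differences in `x`, one obtains congruences modulo `p`
between sums of integers `h_b(x)`, which are zero except if a fraction `k / b` is between `x / N` and `(x + m) / N`,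
and then at most `2^m (m W)^(m-1)`. There are at most `m W² / N + 1` such `b`. By Hoeffding's inequality at least
half of all the sets `c` have all sums in intervals of length less than `p`. So the congruences are equalities, in
characteristic zero, and these contradict the nonvanishing of all the numbers `B_{m,ψ₀}`, that is of `L(m, ψ₀⁻¹)`.
-/

namespace Pool.Agent.Results.MP_c2a07f_nt.PrimesGrowingWithLevel

/-- The generalized Bernoulli number `B_{m,ψ} = N^(m-1) ∑_{a=1}^N ψ(a) B_m(a/N)`. -/
noncomputable def genBernoulli (m : ℕ) {N : ℕ} (ψ : DirichletCharacter ℂ N) : ℂ :=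
  (N : ℂ) ^ (m - 1) * ∑ a ∈ Finset.Icc 1 N, ψ (a : ZMod N) *
    (((Polynomial.bernoulli m).eval ((a : ℚ) / N) : ℚ) : ℂ)

/-- The characters `ψ ≠ 1` modulo `N` with `ψ(-1) = (-1)^m` such that `B_{m,ψ₀} / m` is a unit of the valuation
ring `B`, where `ψ₀` is the primitive character of `ψ` (its modulus is the conductor of `ψ`). -/
def unitCharacters (B : ValuationSubring ℂ) (N m : ℕ) : Set (DirichletCharacter ℂ N) :=
  {ψ | ψ ≠ 1 ∧ ψ (-1) = (-1) ^ m ∧ B.valuation (genBernoulli m ψ.primitiveCharacter / m) = 1}

/-- For every `m ≥ 1` there are `c > 0` and `C` such that for all primes `p > m`, all `N ≥ 2` with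
`p ∤ N φ(N)` and `C N^(m-1) log N ≤ p²`, and all valuation rings `B` of `ℂ` with `p` in the maximal ideal, the number
of the characters `ψ ≠ 1` modulo `N` with `ψ(-1) = (-1)^m` such that `B_{m,ψ₀} / m` is a unit of `B` is at least
`c min (N, (p² N / log N)^(1/(2m))) / (d(N) log N log p) - 1`; `d(N)` is the number of divisors of `N`. -/
theorem result (m : ℕ) (hm : 1 ≤ m) : ∃ c C : ℝ, 0 < c ∧ ∀ p N : ℕ, p.Prime → m ≤ p - 1 → 2 ≤ N →
    ¬ p ∣ N * N.totient → C * ((N : ℝ) ^ (m - 1) * Real.log N) ≤ (p : ℝ) ^ 2 →
    ∀ B : ValuationSubring ℂ, B.valuation (p : ℂ) < 1 →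
    c * min (N : ℝ) (((p : ℝ) ^ 2 * N / Real.log N) ^ (1 / (2 * (m : ℝ)))) /
      ((N.divisors.card : ℝ) * Real.log N * Real.log p) ≤ ((unitCharacters B N m).ncard : ℝ) + 1 := by
  have hfou := Pool.Agent.Helper85.GQ.Fou.main Pool.Agent.Helper85.GQ.Nvm.main
  have hpig := Pool.Agent.Helper85.GQ.Pig.main Pool.Agent.Helper85.GQ.Hoe.main
    Pool.Agent.Helper85.GQ.Spc.main Pool.Agent.Helper85.GQ.Loc.main Pool.Agent.Helper85.GQ.Dif.main
    Pool.Agent.Helper85.GQ.Rec.main Pool.Agent.Helper85.GQ.Cls.main Pool.Agent.Helper85.GQ.Pol.main0 hfou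
  obtain ⟨c, C, hc, h⟩ := Pool.Agent.Helper85.GQ.Par.main m hm
  refine ⟨c, C, hc, fun p N hp hmp hN hpN hsize B hB => ?_⟩
  have hmp' : m < p := by have := hp.two_le; omega
  exact h p N hp hN hmp' hsize (unitCharacters B N m).ncard
    (fun W hN13 hW hW2 => hpig p N m W hp hpN hN13 hm hmp' hW hW2 B hB)

end Pool.Agent.Results.MP_c2a07f_nt.PrimesGrowingWithLevel
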