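import Pool.Agent.Helper91.GT.Real3

/-!
# Greenberg's conjecture: for almost all primes `p`, all the levels `N₁ W`, `W` composed of primes up to `B √(log p)`

Let `p ≥ 5` be a prime and `θ = ψ ω^m` an even character modulo `N p` (`ψ` a primitive character modulo `N`,
`1 ≤ m ≤ p - 2`), `p` prime to `N φ(N)`. The component `X_θ` of `X⁺` vanishes as soon as `B_{m,ψ} / m` is a unit at
the place above `p` (Herbrand's theorem for the eigenspace of `θ⁻¹ ω` of the class group of `ℚ(ζ_{N p})`, and the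
reflection theorem); if also

  `L_p(1 - m, θ) = - (1 - ψ(p) p^(m-1)) B_{m,ψ} / m`

is a unit then the `p`-adic `L`-function of `θ` is a unit and the same component of the Galois group of the maximal
abelian `p`-extension of `ℚ(ζ_{N p^∞})` unramified outside `p` vanishes. (These implications are known and not part
of the Lean text.)

For a fixed prime `p`, a fixed finite set `S` of primes and a fixed `N₁` the theorem of Friedman (for one prime in
`S` the theorem of Washington) says that the values are units for all but finitely many of the characters `ψ` of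
levels `N₁ W`, `W` composed of the primes in `S` (`m` fixed). Nothing is known if `S` is infinite. Here the set of
the primes which divide `W` grows with `p`: let `0 ≤ c < 1/2` and let `A`, `B` be any real numbers. For all but
`C X exp(-A √(log X))` of the primes `p ≤ X` the numbers `B_{m,ψ} / m` and (if not `m = 1`, `ψ(p) = 1`, where it is
zero) the values above are units at all places above `p`, for **all** `m` and `N₁` with `m N₁ ≤ p^c` and **all** `W`
all of whose prime factors are at most `B √(log p)` (their number and the exponents are arbitrary, and `W` and `N₁`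
need not be coprime), and all primitive `ψ` modulo `N₁ W` with `ψ(-1) = (-1)^m`. So for these primes `p` all the
infinitely many components `X_θ`, `θ = ψ ω^m`, of these levels vanish, and for every fixed finite set `S` of primes
the levels include all the levels of the tower which belongs to `S`, as soon as `p` is large.

Proof. As for the theorem with a bounded number of primes (`UniformTowers`), with all constants explicit in the
number `r = π(Z)` of the primes up to `Z = B √(log X)`: the exceptional set of the primes `p ≤ X` for which the part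
of `p^(ℓ-1) - 1` at some prime `ℓ ≤ Z` is more than `X^η`, `η = (1 - 2 c) / (2 r)`, has at most about `Z X^(1 - η)`
elements, and `r ≤ 4 Z / log Z` by Chebyshev, so `X^η` is greater than every `exp(A √(log X))`. For the other
primes an effective version of the theorem of Friedman excludes all the `W` with one large exponent, and for the
remaining `W` the residue degrees are large, so that the product of the norms of the values for all `ψ` bounds the
number of the exceptional primes; the factors which come from the number of the `W` and from the loss in the degrees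
are of size `Z^(35 r²) ≤ exp(560 Z² / log Z) = X^(o(1))`.
-/

set_option autoImplicit false

namespace Pool.Agent.Results.MP_c2a07f_nt.SmoothTowers

/-- The generalized Bernoulli number `B_{m,ψ} = N^(m-1) ∑_{a=1}^N ψ(a) B_m(a/N)`. -/
noncomputable def genBernoulli (m : ℕ) {N : ℕ} (ψ : DirichletCharacter ℂ N) : ℂ :=
  (N : ℂ) ^ (m - 1) * ∑ a ∈ Finset.Icc 1 N, ψ (a : ZMod N) *
    (((Polynomial.bernoulli m).eval ((a : ℚ) / N) : ℚ) : ℂ)

/-- `(1 - ψ(p) p^(m-1)) B_{m,ψ} / m`, the value at `1 - m` of the `L`-function of `ψ` without Euler factor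
at `p` (up to the sign). -/
noncomputable def lValue (p m : ℕ) {N : ℕ} (ψ : DirichletCharacter ℂ N) : ℂ :=
  (1 - ψ (p : ZMod N) * (p : ℂ) ^ (m - 1)) * genBernoulli m ψ / m

/-- `z` is a unit at all places above `p`: it is not zero, and for some integer `c` prime to `p` the numbers
`c z` and `c / z` are algebraic integers. -/
def IsUnitAt (p : ℕ) (z : ℂ) : Prop :=
  z ≠ 0 ∧ ∃ c : ℤ, IsCoprime (p : ℤ) c ∧ IsIntegral ℤ ((c : ℂ) * z) ∧ IsIntegral ℤ ((c : ℂ) * z⁻¹)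

/-- `p` is exceptional: for some `m, N₁ ≥ 1` with `m N₁ ≤ p^c` and some `W ≥ 1` (of any size) all of whose prime
factors are at most `B √(log p)` there is a primitive character `ψ` modulo `N₁ W` with `ψ(-1) = (-1)^m` for which
`B_{m,ψ} / m` is not a unit at `p`, or (and this is not the case `m = 1`, `ψ(p) = 1`) the value
`(1 - ψ(p) p^(m-1)) B_{m,ψ} / m` is not a unit at `p`. -/
def Exceptional (c B : ℝ) (p : ℕ) : Prop :=
  ∃ N₁ W m : ℕ, 1 ≤ N₁ ∧ 1 ≤ W ∧ 1 ≤ m ∧ (m : ℝ) * (N₁ : ℝ) ≤ (p : ℝ) ^ c ∧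
    (∀ ℓ ∈ W.primeFactors, (ℓ : ℝ) ≤ B * √(Real.log p)) ∧
    ∃ ψ : DirichletCharacter ℂ (N₁ * W), ψ.IsPrimitive ∧ ψ (-1) = (-1) ^ m ∧
      ¬ (IsUnitAt p (genBernoulli m ψ / m) ∧
        ((m = 1 → ψ (p : ZMod (N₁ * W)) ≠ 1) → IsUnitAt p (lValue p m ψ)))

open Finset Pool.Agent.Y18.GX Pool.Agent.Helper91.GT

lemma sum_Icc {N : ℕ} (f : ℕ → ℂ) (h0 : f 0 = 0) (hN : f N = 0) :
    ∑ a ∈ Icc 1 N, f a = ∑ a ∈ range N, f a := by
  rcases Nat.eq_zero_or_pos N with h | h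
  · subst h
    simp
  · have h1 : ∑ a ∈ range (N + 1), f a = ∑ a ∈ range N, f a + f N := Finset.sum_range_succ f N
    have h2 : ∑ a ∈ range (N + 1), f a = ∑ a ∈ Icc 1 N, f a + f 0 := by
      rw [Finset.sum_range_succ']
      congr 1
      refine Finset.sum_bij (fun a _ => a + 1) ?_ ?_ ?_ (fun _ _ => rfl)
      · intro a ha
        have := mem_range.1 ha
        rw [mem_Icc]
        omega
      · intro a _ b _ hab
        omega
      · intro b hb
        rw [mem_Icc] at hb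
        exact ⟨b - 1, mem_range.2 (by omega), by omega⟩
    rw [h1, hN, h0, add_zero, add_zero] at h2
    exact h2.symm

lemma gen_eq {m N : ℕ} (hN1 : N ≠ 1) (ψ : DirichletCharacter ℂ N) :
    genBernoulli m ψ = (N : ℂ) ^ (m - 1) *
      ∑ a ∈ range N, ψ (a : ZMod N) * (((Polynomial.bernoulli m).eval ((a : ℚ) / N) : ℚ) : ℂ) := by
  unfold genBernoulli
  rw [sum_Icc]
  · rw [Nat.cast_zero, DirichletCharacter.map_zero' ψ hN1, zero_mul]
  · rw [ZMod.natCast_self, DirichletCharacter.map_zero' ψ hN1, zero_mul]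

lemma one_case {p m N : ℕ} (hN : N = 1) (hp : p.Prime) (hm1 : 1 ≤ m) (hmp : m + 1 < p)
    (hA0 : 2 ≤ m → p ∉ bad0 m)
    (ψ : DirichletCharacter ℂ N) (hpar : ψ (-1) = (-1) ^ m) :
    IsUnitAt p (genBernoulli m ψ / m) ∧ IsUnitAt p (lValue p m ψ) := by
  subst hN
  have hψ : ∀ x, ψ x = 1 := fun x => by
    have : x = 1 := Subsingleton.elim (α := ZMod 1) x 1
    rw [this, map_one]
  have he : Even m := by
    by_contra hcon
    rw [Nat.not_even_iff_odd] at hcon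
    rw [hψ, hcon.neg_one_pow] at hpar
    norm_num at hpar
  have hm : 2 ≤ m := by
    obtain ⟨w, hw⟩ := he
    omega
  have h1 : genBernoulli m ψ = ((_root_.bernoulli m : ℚ) : ℂ) := by
    unfold genBernoulli
    simp only [hψ, one_mul]
    rw [Icc_self, sum_singleton, Nat.cast_one, Nat.cast_one, one_pow, one_mul, div_one,
      Polynomial.bernoulli_eval_one, bernoulli_eq_bernoulli'_of_ne_one (by omega)]
  have h2 : lValue p m ψ = (1 - (p : ℂ) ^ (m - 1)) * ((_root_.bernoulli m : ℚ) : ℂ) / m := by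
    unfold lValue
    rw [h1, hψ, one_mul]
  refine ⟨?_, ?_⟩
  · rw [h1]
    exact unitB_zero hp hm he hmp (hA0 hm)
  · rw [h2]
    exact unit_zero hp hm he hmp (hA0 hm)

lemma small_m {p m : ℕ} {a : ℝ} (h0 : a < 1 / 2) (hp : 5 ≤ p) (hm1 : 1 ≤ m) (h : (m : ℝ) ≤ (p : ℝ) ^ a) :
    m + 1 < p := by
  rcases hm1.eq_or_lt with hm2 | hm
  · omega
  have hp1 : (1 : ℝ) ≤ p := by exact_mod_cast (by omega : 1 ≤ p)
  have h1 : (m : ℝ) ^ 2 ≤ p := by
    calc (m : ℝ) ^ 2 ≤ ((p : ℝ) ^ a) ^ 2 := pow_le_pow_left₀ (by positivity) h 2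
      _ ≤ ((p : ℝ) ^ (1 / 2 : ℝ)) ^ 2 := by
          refine pow_le_pow_left₀ (by positivity) ?_ 2
          exact Real.rpow_le_rpow_of_exponent_le hp1 (by linarith)
      _ = p := by
          rw [← Real.rpow_natCast, ← Real.rpow_mul (by positivity)]
          norm_num
  have h2 : m ^ 2 ≤ p := by exact_mod_cast h1
  have h3 : m * 2 ≤ m ^ 2 := by
    rw [pow_two]
    exact Nat.mul_le_mul_left _ hm
  omega

lemma small_N {p N : ℕ} {b : ℝ} (h0 : b < 1) (hp : 2 ≤ p) (h : (N : ℝ) ≤ (p : ℝ) ^ b) : N < p := by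
  have hp1 : (1 : ℝ) < p := by exact_mod_cast (by omega : 1 < p)
  have h1 : (N : ℝ) < p := by
    calc (N : ℝ) ≤ (p : ℝ) ^ b := h
      _ < (p : ℝ) ^ (1 : ℝ) := Real.rpow_lt_rpow_of_exponent_lt hp1 h0
      _ = p := Real.rpow_one _
  exact_mod_cast h1

lemma smooth_lt {p ℓ : ℕ} {B : ℝ} (hB : 1 ≤ B) (hp : 2 ≤ p) (hBp : B ^ 2 ≤ p) (h : (ℓ : ℝ) ≤ B * √(Real.log p)) :
    ℓ < p := by
  have hp0 : (0 : ℝ) < p := by exact_mod_cast (by omega : 0 < p)
  have h1 : √(Real.log p) < √(p : ℝ) := Real.sqrt_lt_sqrt (Real.log_nonneg (by exact_mod_cast (by omega : 1 ≤ p)))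
    (by have := Real.log_le_sub_one_of_pos hp0; linarith)
  have h2 : B ≤ √(p : ℝ) := Real.le_sqrt_of_sq_le hBp
  have h3 : (ℓ : ℝ) < p := by
    calc (ℓ : ℝ) ≤ B * √(Real.log p) := h
      _ < B * √(p : ℝ) := mul_lt_mul_of_pos_left h1 (by linarith)
      _ ≤ √(p : ℝ) * √(p : ℝ) := mul_le_mul_of_nonneg_right h2 (Real.sqrt_nonneg _)
      _ = p := Real.mul_self_sqrt hp0.le
  exact_mod_cast h3

lemma low {A X : ℝ} (hX : 1 ≤ X) : 1 ≤ Real.exp (A ^ 2 / 4) * (X * Real.exp (-(A * √(Real.log X)))) := by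
  have h1 : √(Real.log X) ^ 2 = Real.log X := Real.sq_sqrt (Real.log_nonneg hX)
  have h2 : X = Real.exp (√(Real.log X) ^ 2) := by rw [h1, Real.exp_log (by linarith)]
  obtain ⟨s, hs⟩ : ∃ s, s = √(Real.log X) := ⟨_, rfl⟩
  rw [← hs] at h2 ⊢
  rw [h2, ← Real.exp_add, ← Real.exp_add]
  refine Real.one_le_exp ?_
  nlinarith [sq_nonneg (s - A / 2)]

lemma main {c A B : ℝ} (hc : 0 ≤ c) (hc2 : c < 1 / 2) (hA : 0 ≤ A) (hB : 1 ≤ B) :
    ∃ C : ℝ, 0 ≤ C ∧ ∀ X : ℝ, 2 ≤ X →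
      (({p : ℕ | p.Prime ∧ 5 ≤ p ∧ (p : ℝ) ≤ X ∧ Exceptional c B p}.ncard : ℕ) : ℝ) ≤
        C * (X * Real.exp (-(A * √(Real.log X)))) := by
  obtain ⟨X₀, hX₀⟩ := params2 hc hc2 hA hB
  refine ⟨1 + (B ^ 2 + |X₀|) * Real.exp (A ^ 2 / 4), by positivity, fun X hX => ?_⟩
  have hX0 : (0 : ℝ) < X := by linarith
  have hX1 : (1 : ℝ) ≤ X := by linarith
  obtain ⟨R, hR⟩ : ∃ R, R = X * Real.exp (-(A * √(Real.log X))) := ⟨_, rfl⟩
  have hR0 : 0 < R := by
    rw [hR]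
    exact mul_pos hX0 (Real.exp_pos _)
  have hlow : 1 ≤ Real.exp (A ^ 2 / 4) * R := by
    rw [hR]
    exact low hX1
  rw [← hR]
  have hexp : (1 + (B ^ 2 + |X₀|) * Real.exp (A ^ 2 / 4)) * R =
      R + B ^ 2 * (Real.exp (A ^ 2 / 4) * R) + |X₀| * (Real.exp (A ^ 2 / 4) * R) := by ring
  rw [hexp]
  have g1 : B ^ 2 * 1 ≤ B ^ 2 * (Real.exp (A ^ 2 / 4) * R) := mul_le_mul_of_nonneg_left hlow (by positivity)
  have g2 : |X₀| * 1 ≤ |X₀| * (Real.exp (A ^ 2 / 4) * R) := mul_le_mul_of_nonneg_left hlow (abs_nonneg _)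
  rcases lt_or_ge X X₀ with hlt | hge
  · have h1 : {p : ℕ | p.Prime ∧ 5 ≤ p ∧ (p : ℝ) ≤ X ∧ Exceptional c B p}.ncard ≤ ⌊X⌋₊ := by
      have h2 : {p : ℕ | p.Prime ∧ 5 ≤ p ∧ (p : ℝ) ≤ X ∧ Exceptional c B p} ⊆ ((Icc 1 ⌊X⌋₊ : Finset ℕ) : Set ℕ) := by
        rintro p ⟨hp, -, hpX, -⟩
        rw [mem_coe, mem_Icc]
        exact ⟨hp.one_lt.le, Nat.le_floor hpX⟩
      refine (Set.ncard_le_ncard h2 (Finset.finite_toSet _)).trans ?_
      rw [Set.ncard_coe_finset, Nat.card_Icc, Nat.add_sub_cancel]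
    have h2 : (({p : ℕ | p.Prime ∧ 5 ≤ p ∧ (p : ℝ) ≤ X ∧ Exceptional c B p}.ncard : ℕ) : ℝ) ≤ X :=
      le_trans (by exact_mod_cast h1) (Nat.floor_le hX0.le)
    have h3 : X₀ ≤ |X₀| := le_abs_self _
    have h4 : 0 ≤ B ^ 2 := by positivity
    linarith
  obtain ⟨-, Z, r, hZ, hr, hZ1, n, T, κ, hT1, hT, hκ, hcount⟩ := hX₀ X hge
  rw [← hR] at hcount
  have hsub : {p : ℕ | p.Prime ∧ 5 ≤ p ∧ (p : ℝ) ≤ X ∧ Exceptional c B p} ⊆
      ((B1all n Z ⌊X⌋₊ ∪ B2 n Z κ r ⌊X ^ c⌋₊ ∪ (Icc 2 ⌊X ^ c⌋₊).biUnion bad0 ∪ Icc 1 ⌊B ^ 2⌋₊ : Finset ℕ) :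
        Set ℕ) := by
    rintro p ⟨hp, h5, hpX, N₁, W, m, hN₁, hW, hm1, hmN, hWp, ψ, hprim, hpar, hno⟩
    by_contra hcon
    rw [mem_coe, mem_union, mem_union, mem_union, not_or, not_or, not_or] at hcon
    obtain ⟨⟨⟨c1, c2⟩, c3⟩, c4⟩ := hcon
    apply hno
    have hp0 : (0 : ℝ) < p := by exact_mod_cast (by omega : 0 < p)
    have hBp : B ^ 2 ≤ p := by
      by_contra hcon
      push Not at hcon
      exact c4 (mem_Icc.2 ⟨by omega, Nat.le_floor hcon.le⟩)
    have hlog : √(Real.log p) ≤ √(Real.log X) := Real.sqrt_le_sqrt (Real.log_le_log hp0 hpX)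
    have hWZ : ∀ ℓ ∈ W.primeFactors, ℓ ≤ Z := fun ℓ hℓ => by
      rw [hZ]
      exact Nat.le_floor ((hWp ℓ hℓ).trans (mul_le_mul_of_nonneg_left hlog (by linarith)))
    have hcard : W.primeFactors.card ≤ r := by
      rw [hr, Nat.primeCounting, Nat.primeCounting', Nat.count_eq_card_filter_range]
      refine card_le_card fun ℓ hℓ => ?_
      rw [mem_filter, mem_range]
      exact ⟨Nat.lt_succ_of_le (hWZ ℓ hℓ), Nat.prime_of_mem_primeFactors hℓ⟩
    have hm1R : (1 : ℝ) ≤ m := by exact_mod_cast hm1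
    have hN1R : (1 : ℝ) ≤ N₁ := by exact_mod_cast hN₁
    have hmR : (m : ℝ) ≤ (p : ℝ) ^ c := by
      refine le_trans ?_ hmN
      exact le_mul_of_one_le_right (by positivity) hN1R
    have hNR : (N₁ : ℝ) ≤ (p : ℝ) ^ c := by
      refine le_trans ?_ hmN
      exact le_mul_of_one_le_left (by positivity) hm1R
    have hQ' : m * N₁ ≤ ⌊X ^ c⌋₊ := by
      refine Nat.le_floor ?_
      push_cast
      exact hmN.trans (Real.rpow_le_rpow (by positivity) hpX hc)
    have hmQ : m ≤ ⌊X ^ c⌋₊ := (Nat.le_mul_of_pos_right _ (by omega)).trans hQ'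
    have hmp := small_m hc2 h5 hm1 hmR
    have hNp : N₁ < p := small_N (by linarith) (by omega) hNR
    have hpos : 0 < N₁ * W := Nat.mul_pos (by omega) (by omega)
    rcases (by omega : N₁ * W = 1 ∨ 1 < N₁ * W) with hN | hN
    · have := one_case hN hp hm1 hmp (fun hm2 h => c3 (mem_biUnion.2 ⟨m, mem_Icc.2 ⟨hm2, hmQ⟩, h⟩)) ψ hpar
      exact ⟨this.1, fun _ => this.2⟩
    · have key := all_unitsB hp h5 (Nat.le_floor hpX) hZ1 hT1 hT hκ
        (fun ℓ hℓ hℓZ hB => c1 (mem_biUnion.2 ⟨ℓ, mem_filter.2 ⟨mem_Icc.2 ⟨hℓ.one_lt.le, hℓZ⟩, hℓ⟩, hB⟩)) c2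
        (N₁ := N₁) (W₀ := W) (by omega) (by omega) hm1 hQ' (by omega) hNp hcard hWZ
        (fun ℓ hℓ => smooth_lt hB (by omega) hBp (hWp ℓ hℓ)) rfl hN ψ hprim hpar
      refine ⟨?_, fun h1 => ?_⟩
      · have h2 := key.1
        unfold valB at h2
        rw [gen_eq hN.ne']
        exact h2
      · have h2 := key.2 h1
        unfold Pool.Agent.Helper91.GT.val at h2
        unfold lValue
        rw [gen_eq hN.ne']
        exact h2
  have hfin : {p : ℕ | p.Prime ∧ 5 ≤ p ∧ (p : ℝ) ≤ X ∧ Exceptional c B p}.ncard ≤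
      (B1all n Z ⌊X⌋₊).card + (B2 n Z κ r ⌊X ^ c⌋₊).card + ((Icc 2 ⌊X ^ c⌋₊).biUnion bad0).card + ⌊B ^ 2⌋₊ := by
    refine (Set.ncard_le_ncard hsub (Finset.finite_toSet _)).trans ?_
    rw [Set.ncard_coe_finset]
    refine (card_union_le _ _).trans (Nat.add_le_add ?_ ?_)
    · exact (card_union_le _ _).trans (Nat.add_le_add_right (card_union_le _ _) _)
    · rw [Nat.card_Icc, Nat.add_sub_cancel]
  have hfin2 : (({p : ℕ | p.Prime ∧ 5 ≤ p ∧ (p : ℝ) ≤ X ∧ Exceptional c B p}.ncard : ℕ) : ℝ) ≤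
      ((B1all n Z ⌊X⌋₊).card : ℝ) + ((B2 n Z κ r ⌊X ^ c⌋₊).card : ℝ) +
        ((((Icc 2 ⌊X ^ c⌋₊).biUnion bad0).card : ℕ) : ℝ) + (⌊B ^ 2⌋₊ : ℝ) := by exact_mod_cast hfin
  have hfl : (⌊B ^ 2⌋₊ : ℝ) ≤ B ^ 2 := Nat.floor_le (by positivity)
  have h3 : 0 ≤ |X₀| := abs_nonneg _
  linarith

lemma Exceptional.mono {c B B' : ℝ} (hB : B ≤ B') {p : ℕ} (h : Exceptional c B p) : Exceptional c B' p := by
  obtain ⟨N₁, W, m, hN₁, hW, hm1, hmN, hWp, h⟩ := h
  exact ⟨N₁, W, m, hN₁, hW, hm1, hmN,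
    fun ℓ hℓ => (hWp ℓ hℓ).trans (mul_le_mul_of_nonneg_right hB (Real.sqrt_nonneg _)), h⟩

/-- **Main theorem.** Let `0 ≤ c < 1/2` and let `A`, `B` be real numbers. There is a constant `C` such that for all
`X ≥ 2` the number of the exceptional primes `5 ≤ p ≤ X` is at most `C X exp(-A √(log X))`. -/
theorem result (c A B : ℝ) (hc : 0 ≤ c) (hc2 : c < 1 / 2) :
    ∃ C : ℝ, ∀ X : ℝ, 2 ≤ X →
      (({p : ℕ | p.Prime ∧ 5 ≤ p ∧ (p : ℝ) ≤ X ∧ Exceptional c B p}.ncard : ℕ) : ℝ) ≤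
        C * X * Real.exp (-(A * √(Real.log X))) := by
  obtain ⟨C, hC0, hC⟩ := main hc hc2 (le_max_right A 0) (le_max_right B 1)
  refine ⟨C, fun X hX => ?_⟩
  have hX0 : (0 : ℝ) < X := by linarith
  rw [mul_assoc]
  have h1 : {p : ℕ | p.Prime ∧ 5 ≤ p ∧ (p : ℝ) ≤ X ∧ Exceptional c B p} ⊆
      {p : ℕ | p.Prime ∧ 5 ≤ p ∧ (p : ℝ) ≤ X ∧ Exceptional c (max B 1) p} :=
    fun p ⟨hp, h5, hpX, h⟩ => ⟨hp, h5, hpX, h.mono (le_max_left _ _)⟩
  have hfin : {p : ℕ | p.Prime ∧ 5 ≤ p ∧ (p : ℝ) ≤ X ∧ Exceptional c (max B 1) p}.Finite := by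
    refine (Finset.finite_toSet (Icc 1 ⌊X⌋₊)).subset ?_
    rintro p ⟨hp, -, hpX, -⟩
    rw [mem_coe, mem_Icc]
    exact ⟨hp.one_lt.le, Nat.le_floor hpX⟩
  have h2 : (({p : ℕ | p.Prime ∧ 5 ≤ p ∧ (p : ℝ) ≤ X ∧ Exceptional c B p}.ncard : ℕ) : ℝ) ≤
      (({p : ℕ | p.Prime ∧ 5 ≤ p ∧ (p : ℝ) ≤ X ∧ Exceptional c (max B 1) p}.ncard : ℕ) : ℝ) := by
    exact_mod_cast Set.ncard_le_ncard h1 hfin
  refine (h2.trans (hC X hX)).trans (mul_le_mul_of_nonneg_left (mul_le_mul_of_nonneg_left ?_ hX0.le) hC0)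
  rw [Real.exp_le_exp, neg_le_neg_iff]
  exact mul_le_mul_of_nonneg_right (le_max_left _ _) (Real.sqrt_nonneg _)

end Pool.Agent.Results.MP_c2a07f_nt.SmoothTowers
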