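import Pool.Agent.Helper91.GT.Real2

/-!
# Greenberg's conjecture: for almost all primes `p`, all the towers of all levels `N₁ W` at once

Let `p ≥ 5` be a prime and `θ = ψ ω^m` an even character modulo `N p` (`ψ` a primitive character modulo `N`,
`1 ≤ m ≤ p - 2`), `p` prime to `N φ(N)`. The component `X_θ` of `X⁺` vanishes as soon as `B_{m,ψ} / m` is a unit at
the place above `p` (Herbrand's theorem for the eigenspace of `θ⁻¹ ω` of the class group of `ℚ(ζ_{N p})`, and the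
reflection theorem); if also

  `L_p(1 - m, θ) = - (1 - ψ(p) p^(m-1)) B_{m,ψ} / m`

is a unit then the `p`-adic `L`-function of `θ` is a unit and the same component of the Galois group of the maximal
abelian `p`-extension of `ℚ(ζ_{N p^∞})` unramified outside `p` vanishes. (These implications are known and not part
of the Lean text.)

For a fixed prime `p`, a fixed finite set `S` of primes and a fixed `N₁` the theorem of Friedman (for one prime in
`S` the theorem of Washington) says that the values are units for all but finitely many of the characters `ψ` of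
levels `N₁ W`, `W` composed of the primes in `S` (`m` fixed); the exceptions depend on `p`, `S`, `N₁`. We show that
for almost all primes `p` there are **no exceptions at all**, uniformly in the set `S` and in `N₁` and `m`: let `r`
be a natural number and `c, c' ≥ 0` with

  `2 c + (r² + 6 r + 2) c' < 1`,     `δ = (1 - 2 c - (r² + 6 r + 2) c') / (r + 2)`.

For all but `C X^(1 - δ)` of the primes `p ≤ X` the numbers `B_{m,ψ} / m` and (if not `m = 1`, `ψ(p) = 1`, where it
is zero) the values above are units at all places above `p`, for **all** `m` and `N₁` with `m N₁ ≤ p^c` and **all**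
`W` which have at most `r` prime factors, these at most `p^c'` (the exponents are arbitrary, and `W` and `N₁` need
not be coprime), and all primitive `ψ` modulo `N₁ W` with `ψ(-1) = (-1)^m`. So for these primes `p` all the
infinitely many components `X_θ`, `θ = ψ ω^m`, of these levels vanish. (All prime factors of `N = N₁ W` are less
than `p`, so `p` is prime to `N φ(N)`.)

Proof. Let `ℓ^(n ℓ)` be of size about `X^η`. Except for few primes `p ≤ X` the part of `p^(ℓ-1) - 1` (of `p² - 1`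
for `ℓ = 2`) at every prime `ℓ ≤ X^c'` is at most `ℓ^(n ℓ)`. Then the part of `p^g - 1` at the primes of `W` is
small, for a suitable `g`, and an effective version of the theorem of Friedman shows that the value is a unit as
soon as one exponent of `W` is at least `κ`, about `X^(r c') log X`. There are only few `W` left, and for these the
residue degree of `p` in the field of the values of `ψ` is at least about `W X^(-r (η + 3 c'))`. So a high power of
`p` divides the norm of the value if `p` is exceptional, and the product of the norms over all `ψ` modulo `N₁ W` is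
bounded, so only few primes `p ≤ X` are exceptional for given `N₁ W` and `m`: not more than
`m N₁ X^(r (η + 3 c'))` times a factor linear in `κ log X`.
-/

set_option autoImplicit false

namespace Pool.Agent.Results.MP_c2a07f_nt.UniformTowers

/-- The generalized Bernoulli number `B_{m,ψ} = N^(m-1) ∑_{a=1}^N ψ(a) B_m(a/N)`. -/
noncomputable def genBernoulli (m : ℕ) {N : ℕ} (ψ : DirichletCharacter ℂ N) : ℂ :=
  (N : ℂ) ^ (m - 1) * ∑ a ∈ Finset.Icc 1 N, ψ (a : ZMod N) *
    (((Polynomial.bernoulli m).eval ((a : ℚ) / N) : ℚ) : ℂ)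

/-- `(1 - ψ(p) p^(m-1)) B_{m,ψ} / m`, the value at `1 - m` of the `L`-function of `ψ` without Euler factor
at `p` (up to the sign). -/
noncomputable def lValue (p m : ℕ) {N : ℕ} (ψ : DirichletCharacter ℂ N) : ℂ :=
  (1 - ψ (p : ZMod N) * (p : ℂ) ^ (m - 1)) * genBernoulli m ψ / m

/-- `z` is a unit at all places above `p`: it is not zero, and for some integer `c` prime to `p` the numbers
`c z` and `c / z` are algebraic integers. -/
def IsUnitAt (p : ℕ) (z : ℂ) : Prop :=
  z ≠ 0 ∧ ∃ c : ℤ, IsCoprime (p : ℤ) c ∧ IsIntegral ℤ ((c : ℂ) * z) ∧ IsIntegral ℤ ((c : ℂ) * z⁻¹)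

/-- `p` is exceptional: for some `m, N₁ ≥ 1` with `m N₁ ≤ p^c` and some `W ≥ 1` (of any size) with at most `r` prime
factors, all of them at most `p^c'`, there is a primitive character `ψ` modulo `N₁ W` with `ψ(-1) = (-1)^m` for which
`B_{m,ψ} / m` is not a unit at `p`, or (and this is not the case `m = 1`, `ψ(p) = 1`) the value
`(1 - ψ(p) p^(m-1)) B_{m,ψ} / m` is not a unit at `p`. -/
def Exceptional (r : ℕ) (c c' : ℝ) (p : ℕ) : Prop :=
  ∃ N₁ W m : ℕ, 1 ≤ N₁ ∧ 1 ≤ W ∧ 1 ≤ m ∧ (m : ℝ) * (N₁ : ℝ) ≤ (p : ℝ) ^ c ∧ W.primeFactors.card ≤ r ∧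
    (∀ ℓ ∈ W.primeFactors, (ℓ : ℝ) ≤ (p : ℝ) ^ c') ∧
    ∃ ψ : DirichletCharacter ℂ (N₁ * W), ψ.IsPrimitive ∧ ψ (-1) = (-1) ^ m ∧
      ¬ (IsUnitAt p (genBernoulli m ψ / m) ∧
        ((m = 1 → ψ (p : ZMod (N₁ * W)) ≠ 1) → IsUnitAt p (lValue p m ψ)))

open Finset Pool.Agent.Y18.GX Pool.Agent.Helper91.GT

lemma sum_Icc {N : ℕ} (f : ℕ → ℂ) (h0 : f 0 = 0) (hN : f N = 0) :
    ∑ a ∈ Icc 1 N, f a = ∑ a ∈ range N, f a := by
  rcases Nat.eq_zero_or_pos N with h | h
  · subst h
    simp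
  · have h1 : ∑ a ∈ range (N + 1), f a = ∑ a ∈ range N, f a + f N := Finset.sum_range_succ f N
    have h2 : ∑ a ∈ range (N + 1), f a = ∑ a ∈ Icc 1 N, f a + f 0 := by
      rw [Finset.sum_range_succ']
      congr 1
      refine Finset.sum_bij (fun a _ => a + 1) ?_ ?_ ?_ (fun _ _ => rfl)
      · intro a ha
        have := mem_range.1 ha
        rw [mem_Icc]
        omega
      · intro a _ b _ hab
        omega
      · intro b hb
        rw [mem_Icc] at hb
        exact ⟨b - 1, mem_range.2 (by omega), by omega⟩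
    rw [h1, hN, h0, add_zero, add_zero] at h2
    exact h2.symm

lemma gen_eq {m N : ℕ} (hN1 : N ≠ 1) (ψ : DirichletCharacter ℂ N) :
    genBernoulli m ψ = (N : ℂ) ^ (m - 1) *
      ∑ a ∈ range N, ψ (a : ZMod N) * (((Polynomial.bernoulli m).eval ((a : ℚ) / N) : ℚ) : ℂ) := by
  unfold genBernoulli
  rw [sum_Icc]
  · rw [Nat.cast_zero, DirichletCharacter.map_zero' ψ hN1, zero_mul]
  · rw [ZMod.natCast_self, DirichletCharacter.map_zero' ψ hN1, zero_mul]

lemma one_case {p m N : ℕ} (hN : N = 1) (hp : p.Prime) (hm1 : 1 ≤ m) (hmp : m + 1 < p)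
    (hA0 : 2 ≤ m → p ∉ bad0 m)
    (ψ : DirichletCharacter ℂ N) (hpar : ψ (-1) = (-1) ^ m) :
    IsUnitAt p (genBernoulli m ψ / m) ∧ IsUnitAt p (lValue p m ψ) := by
  subst hN
  have hψ : ∀ x, ψ x = 1 := fun x => by
    have : x = 1 := Subsingleton.elim (α := ZMod 1) x 1
    rw [this, map_one]
  have he : Even m := by
    by_contra hcon
    rw [Nat.not_even_iff_odd] at hcon
    rw [hψ, hcon.neg_one_pow] at hpar
    norm_num at hpar
  have hm : 2 ≤ m := by
    obtain ⟨w, hw⟩ := he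
    omega
  have h1 : genBernoulli m ψ = ((_root_.bernoulli m : ℚ) : ℂ) := by
    unfold genBernoulli
    simp only [hψ, one_mul]
    rw [Icc_self, sum_singleton, Nat.cast_one, Nat.cast_one, one_pow, one_mul, div_one,
      Polynomial.bernoulli_eval_one, bernoulli_eq_bernoulli'_of_ne_one (by omega)]
  have h2 : lValue p m ψ = (1 - (p : ℂ) ^ (m - 1)) * ((_root_.bernoulli m : ℚ) : ℂ) / m := by
    unfold lValue
    rw [h1, hψ, one_mul]
  refine ⟨?_, ?_⟩
  · rw [h1]
    exact unitB_zero hp hm he hmp (hA0 hm)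
  · rw [h2]
    exact unit_zero hp hm he hmp (hA0 hm)

lemma small_m {p m : ℕ} {a : ℝ} (h0 : a < 1 / 2) (hp : 5 ≤ p) (hm1 : 1 ≤ m) (h : (m : ℝ) ≤ (p : ℝ) ^ a) :
    m + 1 < p := by
  rcases hm1.eq_or_lt with hm2 | hm
  · omega
  have hp1 : (1 : ℝ) ≤ p := by exact_mod_cast (by omega : 1 ≤ p)
  have h1 : (m : ℝ) ^ 2 ≤ p := by
    calc (m : ℝ) ^ 2 ≤ ((p : ℝ) ^ a) ^ 2 := pow_le_pow_left₀ (by positivity) h 2
      _ ≤ ((p : ℝ) ^ (1 / 2 : ℝ)) ^ 2 := by
          refine pow_le_pow_left₀ (by positivity) ?_ 2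
          exact Real.rpow_le_rpow_of_exponent_le hp1 (by linarith)
      _ = p := by
          rw [← Real.rpow_natCast, ← Real.rpow_mul (by positivity)]
          norm_num
  have h2 : m ^ 2 ≤ p := by exact_mod_cast h1
  have h3 : m * 2 ≤ m ^ 2 := by
    rw [pow_two]
    exact Nat.mul_le_mul_left _ hm
  omega

lemma small_N {p N : ℕ} {b : ℝ} (h0 : b < 1) (hp : 2 ≤ p) (h : (N : ℝ) ≤ (p : ℝ) ^ b) : N < p := by
  have hp1 : (1 : ℝ) < p := by exact_mod_cast (by omega : 1 < p)
  have h1 : (N : ℝ) < p := by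
    calc (N : ℝ) ≤ (p : ℝ) ^ b := h
      _ < (p : ℝ) ^ (1 : ℝ) := Real.rpow_lt_rpow_of_exponent_lt hp1 h0
      _ = p := Real.rpow_one _
  exact_mod_cast h1

/-- **Main theorem.** Let `r` be a natural number, `c, c' ≥ 0` and `2 c + (r² + 6 r + 2) c' < 1`. There is a constant
`C` such that for all `X ≥ 2` the number of the exceptional primes `5 ≤ p ≤ X` is at most `C X^(1 - δ)`,
`δ = (1 - 2 c - (r² + 6 r + 2) c') / (r + 2) > 0`. -/
theorem result (r : ℕ) (c c' : ℝ) (hc : 0 ≤ c) (hc' : 0 ≤ c') (h : 2 * c + ((r : ℝ) ^ 2 + 6 * r + 2) * c' < 1) :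
    ∃ C : ℝ, ∀ X : ℝ, 2 ≤ X →
      (({p : ℕ | p.Prime ∧ 5 ≤ p ∧ (p : ℝ) ≤ X ∧ Exceptional r c c' p}.ncard : ℕ) : ℝ) ≤
        C * X ^ (1 - (1 - 2 * c - ((r : ℝ) ^ 2 + 6 * r + 2) * c') / (r + 2)) := by
  have hc2 : c < 1 / 2 := by
    have : 0 ≤ ((r : ℝ) ^ 2 + 6 * r + 2) * c' := by positivity
    linarith
  have hc'1 : c' < 1 := by
    have h1 : 0 ≤ ((r : ℝ) ^ 2 + 6 * r) * c' := by positivity
    have h2 : ((r : ℝ) ^ 2 + 6 * r + 2) * c' = ((r : ℝ) ^ 2 + 6 * r) * c' + 2 * c' := by ring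
    linarith
  obtain ⟨C, hC⟩ := params r hc hc' h
  refine ⟨C, fun X hX => ?_⟩
  have hX0 : (0 : ℝ) < X := by linarith
  have hX1 : (1 : ℝ) ≤ X := by linarith
  obtain ⟨n, T, κ, hT1, hT, hκ, hcount⟩ := hC X hX
  have hZ1 : 1 ≤ ⌊X ^ c'⌋₊ := Nat.le_floor (by exact_mod_cast Real.one_le_rpow hX1 hc')
  refine le_trans ?_ hcount
  have hsub : {p : ℕ | p.Prime ∧ 5 ≤ p ∧ (p : ℝ) ≤ X ∧ Exceptional r c c' p} ⊆
      ((B1all n ⌊X ^ c'⌋₊ ⌊X⌋₊ ∪ B2 n ⌊X ^ c'⌋₊ κ r ⌊X ^ c⌋₊ ∪ (Icc 2 ⌊X ^ c⌋₊).biUnion bad0 : Finset ℕ) : Set ℕ) := by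
    rintro p ⟨hp, h5, hpX, N₁, W, m, hN₁, hW, hm1, hmN, hcard, hWp, ψ, hprim, hpar, hno⟩
    by_contra hcon
    rw [mem_coe, mem_union, mem_union, not_or, not_or] at hcon
    obtain ⟨⟨c1, c2⟩, c3⟩ := hcon
    apply hno
    have hm1R : (1 : ℝ) ≤ m := by exact_mod_cast hm1
    have hN1R : (1 : ℝ) ≤ N₁ := by exact_mod_cast hN₁
    have hmR : (m : ℝ) ≤ (p : ℝ) ^ c := by
      refine le_trans ?_ hmN
      exact le_mul_of_one_le_right (by positivity) hN1R
    have hNR : (N₁ : ℝ) ≤ (p : ℝ) ^ c := by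
      refine le_trans ?_ hmN
      exact le_mul_of_one_le_left (by positivity) hm1R
    have hQ' : m * N₁ ≤ ⌊X ^ c⌋₊ := by
      refine Nat.le_floor ?_
      push_cast
      exact hmN.trans (Real.rpow_le_rpow (by positivity) hpX hc)
    have hmQ : m ≤ ⌊X ^ c⌋₊ := (Nat.le_mul_of_pos_right _ (by omega)).trans hQ'
    have hmp := small_m hc2 h5 hm1 hmR
    have hNp : N₁ < p := small_N (by linarith) (by omega) hNR
    have hpos : 0 < N₁ * W := Nat.mul_pos (by omega) (by omega)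
    rcases (by omega : N₁ * W = 1 ∨ 1 < N₁ * W) with hN | hN
    · have := one_case hN hp hm1 hmp (fun hm2 h => c3 (mem_biUnion.2 ⟨m, mem_Icc.2 ⟨hm2, hmQ⟩, h⟩)) ψ hpar
      exact ⟨this.1, fun _ => this.2⟩
    · have key := all_unitsB hp h5 (Nat.le_floor hpX) hZ1 hT1 hT hκ
        (fun ℓ hℓ hℓZ hB => c1 (mem_biUnion.2 ⟨ℓ, mem_filter.2 ⟨mem_Icc.2 ⟨hℓ.one_lt.le, hℓZ⟩, hℓ⟩, hB⟩)) c2
        (N₁ := N₁) (W₀ := W) (by omega) (by omega) hm1 hQ' (by omega) hNp hcard
        (fun ℓ hℓ => Nat.le_floor ((hWp ℓ hℓ).trans (Real.rpow_le_rpow (by positivity) hpX hc')))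
        (fun ℓ hℓ => small_N hc'1 (by omega) (hWp ℓ hℓ)) rfl hN ψ hprim hpar
      refine ⟨?_, fun h1 => ?_⟩
      · have h2 := key.1
        unfold valB at h2
        rw [gen_eq hN.ne']
        exact h2
      · have h2 := key.2 h1
        unfold Pool.Agent.Helper91.GT.val at h2
        unfold lValue
        rw [gen_eq hN.ne']
        exact h2
  have hfin : {p : ℕ | p.Prime ∧ 5 ≤ p ∧ (p : ℝ) ≤ X ∧ Exceptional r c c' p}.ncard ≤
      (B1all n ⌊X ^ c'⌋₊ ⌊X⌋₊).card + (B2 n ⌊X ^ c'⌋₊ κ r ⌊X ^ c⌋₊).card + ((Icc 2 ⌊X ^ c⌋₊).biUnion bad0).card := by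
    refine (Set.ncard_le_ncard hsub (Finset.finite_toSet _)).trans ?_
    rw [Set.ncard_coe_finset]
    exact (card_union_le _ _).trans (Nat.add_le_add_right (card_union_le _ _) _)
  exact_mod_cast hfin

end Pool.Agent.Results.MP_c2a07f_nt.UniformTowers
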